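import Pool.Agent.R402.HB.Stm

/-! Piece HB-BAIREB of project HB. -/

set_option autoImplicit false
open scoped Topology
open Filter Set

namespace Pool.Agent.R402.HB

theorem baireb_core {X : Type} [NormedAddCommGroup X] [NormedSpace ℂ X]
    (hUL : ∀ (B : ℕ → X →L[ℂ] X) (k : ℝ), (∀ n, ‖B n‖ ≤ k) → ∀ 𝒰 : Ultrafilter ℕ,
      ∃ C : X →L[ℂ] X, ‖C‖ ≤ k ∧ ∀ (l : X →L[ℂ] ℂ) (y : X),
        Tendsto (fun n => l (B n y)) (𝒰 : Filter ℕ) (𝓝 (l (C y))))
    (S R : X →L[ℂ] X)
    (hmg : ¬ IsMeagre {x : X | ∃ B : X →L[ℂ] X, B * S = S * B ∧ B x = R x}) :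
    ∃ (z : X) (δ k : ℝ), 0 < δ ∧ 0 < k ∧ ∀ x : X, ‖x - z‖ < δ →
      ∃ B : X →L[ℂ] X, B * S = S * B ∧ ‖B‖ ≤ k ∧ B x = R x := by
  by_contra hcon
  apply hmg
  have hun : {x : X | ∃ B : X →L[ℂ] X, B * S = S * B ∧ B x = R x} =
      ⋃ k : ℕ, {x : X | ∃ B : X →L[ℂ] X, B * S = S * B ∧ ‖B‖ ≤ (k : ℝ) ∧ B x = R x} := by
    ext x
    simp only [Set.mem_ofPred_eq, Set.mem_iUnion]
    constructor
    · rintro ⟨B, hB, h⟩
      obtain ⟨k, hk⟩ := exists_nat_ge ‖B‖
      exact ⟨k, B, hB, hk, h⟩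
    · rintro ⟨k, B, hB, -, h⟩
      exact ⟨B, hB, h⟩
  have hcl : ∀ k : ℕ, IsClosed {x : X | ∃ B : X →L[ℂ] X, B * S = S * B ∧ ‖B‖ ≤ (k : ℝ) ∧
      B x = R x} := by
    intro k
    rw [← isSeqClosed_iff_isClosed]
    intro x y hx hxy
    choose B hB hBn hBx using hx
    obtain ⟨C, hC, hlim⟩ := hUL B k hBn (Filter.hyperfilter ℕ)
    have hle : (Filter.hyperfilter ℕ : Filter ℕ) ≤ atTop := by
      rw [← Nat.cofinite_eq_atTop]
      exact Filter.hyperfilter_le_cofinite
    refine ⟨C, ?_, hC, ?_⟩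
    · ext v
      rw [NormedSpace.eq_iff_forall_dual_eq ℂ]
      intro l
      have h1 := hlim l (S v)
      have h2 := hlim (l.comp S) v
      have h3 : (fun n => l (B n (S v))) = fun n => (l.comp S) (B n v) := by
        funext n
        have := congrArg (fun T : X →L[ℂ] X => l (T v)) (hB n)
        simpa using this
      rw [h3] at h1
      have := tendsto_nhds_unique h1 h2
      simpa using this
    · rw [NormedSpace.eq_iff_forall_dual_eq ℂ]
      intro l
      have h1 := hlim l y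
      have h2 : Tendsto (fun n => l (B n y)) atTop (𝓝 (l (R y))) := by
        have e : ∀ n, B n y = R (x n) + B n (y - x n) := by
          intro n
          rw [map_sub, hBx n]
          abel
        have t0 : Tendsto (fun n => B n (y - x n)) atTop (𝓝 0) := by
          apply squeeze_zero_norm (a := fun n => (k : ℝ) * ‖y - x n‖)
          · intro n
            exact (B n).le_of_opNorm_le (hBn n) _
          · have h3 := ((tendsto_const_nhds (x := y)).sub hxy).norm.const_mul (k : ℝ)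
            simpa using h3
        have t1 : Tendsto (fun n => B n y) atTop (𝓝 (R y)) := by
          have h3 := ((R.continuous.tendsto y).comp hxy).add t0
          rw [add_zero] at h3
          refine h3.congr fun n => ?_
          exact (e n).symm
        exact (l.continuous.tendsto _).comp t1
      exact tendsto_nhds_unique h1 (h2.mono_left hle)
  rw [hun]
  refine isMeagre_iUnion fun k => ?_
  apply IsNowhereDense.isMeagre
  rw [(hcl k).isNowhereDense_iff]
  by_contra hint
  rw [← Ne, ← Set.nonempty_iff_ne_empty] at hint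
  obtain ⟨z, hz⟩ := hint
  rw [mem_interior_iff_mem_nhds, Metric.mem_nhds_iff] at hz
  obtain ⟨δ, hδ, hball⟩ := hz
  refine hcon ⟨z, δ, k + 1, hδ, by positivity, fun x hx => ?_⟩
  obtain ⟨B, hB, h1, h2⟩ := hball (mem_ball_iff_norm.2 hx)
  exact ⟨B, hB, h1.trans (by linarith), h2⟩

theorem baireb_of (h : ULBStm) : BaireBStm := by
  intro X _ _ _ hX S R hmg
  exact baireb_core (fun B k hB 𝒰 => h X hX B k hB 𝒰) S R hmg

end Pool.Agent.R402.HB
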