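import Pool.Agent.R402.HB.Stm

/-! Piece DIFF of project HB. -/

set_option autoImplicit false
set_option linter.all false

open scoped Topology
open Filter Set

namespace Pool.Agent.R402.HB

theorem diff_of (h1 : GenStm) (h2 : WeakStm) : DiffStm := by
  intro X _ _ _ hX S R z δ k hδ hk hB hd σ C hC hs ν x l
  obtain ⟨T, hTd⟩ : ∃ T : ℂ → X →L[ℂ] X, T = fun μ => S - μ • (1 : X →L[ℂ] X) := ⟨_, rfl⟩
  have hT : ∀ μ u, T μ u = S u - μ • u := by
    intro μ u
    rw [hTd]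
    rfl
  have hTc : Continuous T := by
    rw [hTd]
    exact continuous_const.sub (continuous_id.smul continuous_const)
  have hTB : ∀ μ, ∀ B : X →L[ℂ] X, B * S = S * B → B * T μ = T μ * B := by
    intro μ B hBS
    rw [hTd]
    change B * (S - μ • (1 : X →L[ℂ] X)) = (S - μ • (1 : X →L[ℂ] X)) * B
    rw [mul_sub, sub_mul, hBS, mul_smul_comm, smul_mul_assoc, mul_one, one_mul]
  have hdr : DenseRange (T ν) := by
    have h3 : (T ν : X → X) = fun x : X => S x - ν • x := funext fun u => hT ν u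
    rw [h3]
    exact hd ν
  obtain ⟨η, hη, C', hC', hG⟩ := h1 X S R z δ k hδ hk hB (fun μ => T μ * T ν) ν
    ((hTc.mul continuous_const).continuousAt)
    (fun μ B hBS => by
      rw [← mul_assoc, hTB μ B hBS, mul_assoc, hTB ν B hBS, mul_assoc])
    (hdr.comp hdr (T ν).continuous)
  have hG1 : ∀ μ, ∃ u : X, ‖μ - ν‖ < η → (T μ (T ν u) = R (T μ (T ν x)) ∧ ‖u‖ ≤ C' * ‖x‖) := by
    intro μ
    by_cases h : ‖μ - ν‖ < η
    · obtain ⟨u, hu, hu'⟩ := hG μ h x
      exact ⟨u, fun _ => ⟨hu, hu'⟩⟩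
    · exact ⟨0, fun h' => absurd h' h⟩
  choose G hG using hG1
  have hinj : ∀ μ u v, T μ u = T μ v → u = v := by
    intro μ u v h
    have h3 : S (u - v) - μ • (u - v) = 0 := by
      rw [← hT, map_sub, h, sub_self]
    exact sub_eq_zero.1 (hs.inj μ _ h3)
  have heq : ∀ μ u, T μ (σ μ u) = R (T μ u) := by
    intro μ u
    rw [hT, hT]
    exact hs.eq μ u
  have hcomm : ∀ μ u, T μ (T ν u) = T ν (T μ u) := by
    intro μ u
    simp only [hT, map_sub, map_smul, smul_sub]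
    rw [smul_comm]
    abel
  have hy : S x - ν • x = T ν x := (hT ν x).symm
  rw [hy]
  have ha : ∀ μ, ‖μ - ν‖ < η → σ μ (T ν x) = T ν (G μ) := by
    intro μ hμ
    refine hinj μ _ _ ?_
    rw [heq, (hG μ hμ).1]
  have hb : ∀ μ, ‖μ - ν‖ < η → T μ (G μ) = σ ν (T μ x) := by
    intro μ hμ
    refine hinj ν _ _ ?_
    rw [heq, ← hcomm, (hG μ hμ).1, hcomm]
  have hc : ∀ μ, ‖μ - ν‖ < η →
      σ μ (T ν x) = σ ν (T ν x) - (μ - ν) • σ ν x + (μ - ν) • G μ := by
    intro μ hμ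
    have h3 : T ν (G μ) = T μ (G μ) + (μ - ν) • G μ := by
      rw [hT, hT, sub_smul]
      abel
    have h4 : T μ x = T ν x - (μ - ν) • x := by
      rw [hT, hT, sub_smul]
      abel
    rw [ha μ hμ, h3, hb μ hμ, h4, map_sub, map_smul]
  have hev : ∀ᶠ μ in 𝓝[≠] ν, ‖μ - ν‖ < η := by
    refine mem_nhdsWithin_of_mem_nhds ?_
    have h3 := Metric.ball_mem_nhds ν hη
    filter_upwards [h3] with μ hμ
    rwa [Metric.mem_ball, dist_eq_norm] at hμ
  have hν : ‖ν - ν‖ < η := by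
    rw [sub_self, norm_zero]
    exact hη
  have hw : Tendsto (fun μ => l (G μ)) (𝓝[≠] ν) (𝓝 (l (G ν))) := by
    refine h2 X hX (T ν) (fun u hu => hs.inj ν u (by rw [← hT]; exact hu)) (C' * ‖x‖) (𝓝[≠] ν)
      G (G ν) ?_ ?_ l
    · filter_upwards [hev] with μ hμ
      exact (hG μ hμ).2
    · intro h
      rw [← ha ν hν]
      have h3 : Tendsto (fun μ => h (σ μ (T ν x))) (𝓝[≠] ν) (𝓝 (h (σ ν (T ν x)))) :=
        ((hs.wc (T ν x) h).tendsto ν).mono_left nhdsWithin_le_nhds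
      refine h3.congr' ?_
      filter_upwards [hev] with μ hμ
      rw [ha μ hμ]
  have hder : HasDerivAt (fun μ => l (σ μ (T ν x))) (l (G ν) - l (σ ν x)) ν := by
    rw [hasDerivAt_iff_tendsto_slope]
    refine (hw.sub_const (l (σ ν x))).congr' ?_
    filter_upwards [hev, self_mem_nhdsWithin] with μ hμ hne
    have hne' : μ - ν ≠ 0 := sub_ne_zero.2 hne
    rw [slope_def_field]
    rw [hc μ hμ]
    simp only [map_add, map_sub, map_smul, smul_eq_mul]
    field_simp
    ring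
  exact hder.differentiableAt

end Pool.Agent.R402.HB
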