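import Pool.Agent.R402.HB.Stm

/-! Project HB (helper402), piece HB-GEN, by helper84. -/

set_option autoImplicit false
open scoped Topology
open Filter Set

namespace Pool.Agent.R402.HB

theorem gen : GenStm := by
  intro X _ _ _ S R z δ k hδ hk hB L μ₀ hL hcomm hdense
  obtain ⟨x0, hx0⟩ : ∃ x0 : X, ‖L μ₀ x0 - z‖ < δ / 4 := by
    obtain ⟨x0, hx0⟩ := hdense.exists_dist_lt z (by positivity : (0 : ℝ) < δ / 4)
    refine ⟨x0, ?_⟩
    rw [dist_comm, dist_eq_norm] at hx0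
    exact hx0
  set N : ℝ := ‖L μ₀‖ + 1 with hN
  have hNpos : 0 < N := by positivity
  set s : ℝ := δ / (4 * N) with hs
  have hspos : 0 < s := by positivity
  have hsN : s * N = δ / 4 := by
    rw [hs]; field_simp
  set ε : ℝ := min 1 (δ / (4 * (‖x0‖ + 1))) with hε
  have hεpos : 0 < ε := by
    apply lt_min one_pos
    positivity
  obtain ⟨η, hη, hηL⟩ := Metric.continuousAt_iff.1 hL ε hεpos
  set C : ℝ := (k * (‖x0‖ + s) + k * ‖x0‖) / s with hC
  have hCnn : 0 ≤ C := by positivity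
  refine ⟨η, hη, C, hCnn, ?_⟩
  intro μ hμ x
  have hd : ‖L μ - L μ₀‖ < ε := by
    have := hηL (x := μ) (by rw [dist_eq_norm]; exact hμ)
    rwa [dist_eq_norm] at this
  have hd1 : ‖L μ - L μ₀‖ ≤ 1 := hd.le.trans (min_le_left _ _)
  have hd2 : ‖L μ - L μ₀‖ * ‖x0‖ ≤ δ / 4 := by
    have h1 : ‖L μ - L μ₀‖ ≤ δ / (4 * (‖x0‖ + 1)) := hd.le.trans (min_le_right _ _)
    calc ‖L μ - L μ₀‖ * ‖x0‖ ≤ δ / (4 * (‖x0‖ + 1)) * (‖x0‖ + 1) := by
          apply mul_le_mul h1 (by linarith) (norm_nonneg _) (by positivity)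
      _ = δ / 4 := by
          field_simp
  have hLμ : ‖L μ‖ ≤ N := by
    calc ‖L μ‖ = ‖(L μ - L μ₀) + L μ₀‖ := by rw [sub_add_cancel]
      _ ≤ ‖L μ - L μ₀‖ + ‖L μ₀‖ := norm_add_le _ _
      _ ≤ N := by rw [hN]; linarith
  -- the key distance estimate
  have key : ∀ e : X, ‖e‖ ≤ 1 → ‖L μ (x0 + (s : ℂ) • e) - z‖ < δ := by
    intro e he
    have h1 : L μ (x0 + (s : ℂ) • e) - z
        = (L μ - L μ₀) x0 + (L μ₀ x0 - z) + (s : ℂ) • L μ e := by
      simp only [map_add, map_smul, ContinuousLinearMap.sub_apply]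
      abel
    have h2 : ‖(L μ - L μ₀) x0‖ ≤ δ / 4 := ((L μ - L μ₀).le_opNorm x0).trans hd2
    have h3 : ‖(s : ℂ) • L μ e‖ ≤ δ / 4 := by
      rw [norm_smul, Complex.norm_real, Real.norm_eq_abs, abs_of_pos hspos]
      calc s * ‖L μ e‖ ≤ s * (N * 1) := by
            apply mul_le_mul_of_nonneg_left _ hspos.le
            exact ((L μ).le_opNorm e).trans (mul_le_mul hLμ he (norm_nonneg _) hNpos.le)
        _ = δ / 4 := by rw [mul_one, hsN]
    rw [h1]
    calc ‖(L μ - L μ₀) x0 + (L μ₀ x0 - z) + (s : ℂ) • L μ e‖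
        ≤ ‖(L μ - L μ₀) x0 + (L μ₀ x0 - z)‖ + ‖(s : ℂ) • L μ e‖ := norm_add_le _ _
      _ ≤ ‖(L μ - L μ₀) x0‖ + ‖L μ₀ x0 - z‖ + ‖(s : ℂ) • L μ e‖ := by
          gcongr
          exact norm_add_le _ _
      _ < δ := by linarith
  have comm : ∀ B : X →L[ℂ] X, B * S = S * B → ∀ v : X, B (L μ v) = L μ (B v) := by
    intro B hBS v
    have := congrArg (fun T : X →L[ℂ] X => T v) (hcomm μ B hBS)
    simpa using this
  by_cases hx : x = 0
  · refine ⟨0, ?_, ?_⟩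
    · simp [hx]
    · simp [hx]
  have hxn : 0 < ‖x‖ := norm_pos_iff.2 hx
  set c : ℝ := ‖x‖ with hc
  set e : X := ((c⁻¹ : ℝ) : ℂ) • x with he
  have hen : ‖e‖ ≤ 1 := by
    rw [he, norm_smul, Complex.norm_real, Real.norm_eq_abs, abs_of_pos (by positivity)]
    rw [← hc, inv_mul_cancel₀ hxn.ne']
  have hce : (c : ℂ) • e = x := by
    rw [he, smul_smul, ← Complex.ofReal_mul, mul_inv_cancel₀ hxn.ne']
    simp
  obtain ⟨B1, hB1S, hB1n, hB1⟩ := hB (L μ (x0 + (s : ℂ) • e)) (key e hen)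
  obtain ⟨B0, hB0S, hB0n, hB0⟩ := hB (L μ x0) (by
    have := key 0 (by simp)
    simpa using this)
  have e1 : L μ (B1 (x0 + (s : ℂ) • e)) = R (L μ (x0 + (s : ℂ) • e)) := by
    rw [← comm B1 hB1S, hB1]
  have e0 : L μ (B0 x0) = R (L μ x0) := by
    rw [← comm B0 hB0S, hB0]
  have hsC : (s : ℂ) ≠ 0 := by
    exact_mod_cast hspos.ne'
  refine ⟨((c / s : ℝ) : ℂ) • (B1 (x0 + (s : ℂ) • e) - B0 x0), ?_, ?_⟩
  · rw [map_smul, map_sub, e1, e0, ← map_sub, ← map_sub]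
    rw [add_sub_cancel_left, map_smul, map_smul, smul_smul]
    have h5 : (((c / s : ℝ) : ℂ) * (s : ℂ)) = (c : ℂ) := by
      push_cast
      field_simp
    rw [h5, ← map_smul, ← map_smul, hce]
  · rw [norm_smul, Complex.norm_real, Real.norm_eq_abs, abs_of_pos (by positivity)]
    have hx1 : ‖x0 + (s : ℂ) • e‖ ≤ ‖x0‖ + s := by
      refine (norm_add_le _ _).trans ?_
      gcongr
      rw [norm_smul, Complex.norm_real, Real.norm_eq_abs, abs_of_pos hspos]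
      calc s * ‖e‖ ≤ s * 1 := mul_le_mul_of_nonneg_left hen hspos.le
        _ = s := mul_one s
    have h6 : ‖B1 (x0 + (s : ℂ) • e) - B0 x0‖ ≤ k * (‖x0‖ + s) + k * ‖x0‖ := by
      refine (norm_sub_le _ _).trans ?_
      apply add_le_add
      · exact (B1.le_opNorm _).trans (mul_le_mul hB1n hx1 (norm_nonneg _) hk.le)
      · exact (B0.le_opNorm _).trans (mul_le_mul_of_nonneg_right hB0n (norm_nonneg _))
    calc c / s * ‖B1 (x0 + (s : ℂ) • e) - B0 x0‖
        ≤ c / s * (k * (‖x0‖ + s) + k * ‖x0‖) :=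
          mul_le_mul_of_nonneg_left h6 (by positivity)
      _ = C * c := by
          rw [hC]; ring

end Pool.Agent.R402.HB
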