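import Pool.Agent.R402.HB.Stm

/-! Piece HOLIN of project HB (MP_5ac32f_an). -/

set_option autoImplicit false
open scoped Topology
open Filter Set

namespace Pool.Agent.R402.HB

theorem hol_lim (U : Set ℂ) (hU : IsOpen U) (f : ℂ → ℂ) (F : ℕ → ℂ → ℂ) (e : ℕ → ℝ)
    (he : Tendsto e atTop (𝓝 0)) (hF : ∀ n, DifferentiableOn ℂ (F n) U)
    (h : ∀ n, ∀ μ ∈ U, ‖f μ - F n μ‖ ≤ e n) : DifferentiableOn ℂ f U := by
  have h1 : TendstoUniformlyOn F f atTop U := by
    rw [Metric.tendstoUniformlyOn_iff]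
    intro ε hε
    filter_upwards [he.eventually (gt_mem_nhds hε)] with n hn μ hμ
    rw [dist_eq_norm]
    exact (h n μ hμ).trans_lt hn
  exact h1.tendstoLocallyUniformlyOn.differentiableOn (Eventually.of_forall hF) hU

theorem holin : HolInStm := by
  intro X _ _ _ S R σ C hC hσ hd a r hdense x l
  have hpos : ∀ n : ℕ, (0 : ℝ) < 1 / ((n : ℝ) + 1) := fun n => by positivity
  have hy : ∀ n : ℕ, ∃ y ∈ MO S (Metric.ball a r), dist x y < 1 / ((n : ℝ) + 1) := fun n =>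
    hdense.exists_dist_lt x (hpos n)
  choose y hyM hyd using hy
  have hon : DifferentiableOn ℂ (fun μ => l (σ μ x)) (Metric.ball a r) := by
    refine hol_lim (Metric.ball a r) Metric.isOpen_ball (fun μ => l (σ μ x))
      (fun n μ => l (σ μ (y n))) (fun n => ‖l‖ * C * (1 / ((n : ℝ) + 1))) ?_ ?_ ?_
    · have h1 : Tendsto (fun n : ℕ => 1 / ((n : ℝ) + 1)) atTop (𝓝 0) :=
        tendsto_one_div_add_atTop_nhds_zero_nat
      simpa using h1.const_mul (‖l‖ * C)
    · intro n ν hν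
      obtain ⟨u, hu⟩ := hyM n ν hν
      have h1 := hd ν u l
      rw [hu] at h1
      exact h1.differentiableWithinAt
    · intro n μ _
      have h1 : l (σ μ x) - l (σ μ (y n)) = l (σ μ (x - y n)) := by
        rw [map_sub, map_sub]
      show ‖l (σ μ x) - l (σ μ (y n))‖ ≤ _
      rw [h1]
      have h2 : ‖l (σ μ (x - y n))‖ ≤ ‖l‖ * ‖σ μ (x - y n)‖ := l.le_opNorm _
      have h3 : ‖σ μ (x - y n)‖ ≤ C * ‖x - y n‖ :=
        ((σ μ).le_opNorm _).trans (mul_le_mul_of_nonneg_right (hσ.bd μ) (norm_nonneg _))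
      have h4 : ‖x - y n‖ ≤ 1 / ((n : ℝ) + 1) := by
        rw [← dist_eq_norm]; exact (hyd n).le
      calc ‖l (σ μ (x - y n))‖ ≤ ‖l‖ * (C * ‖x - y n‖) :=
            h2.trans (mul_le_mul_of_nonneg_left h3 (norm_nonneg _))
        _ ≤ ‖l‖ * (C * (1 / ((n : ℝ) + 1))) :=
            mul_le_mul_of_nonneg_left (mul_le_mul_of_nonneg_left h4 hC) (norm_nonneg _)
        _ = ‖l‖ * C * (1 / ((n : ℝ) + 1)) := by ring
  intro μ hμ
  exact hon.differentiableAt (Metric.isOpen_ball.mem_nhds hμ)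

end Pool.Agent.R402.HB
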