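import Pool.Agent.R402.HB.Stm

/-! Project HB: piece HOLOUT (holomorphy outside the ball, by Morera's theorem). -/

set_option autoImplicit false
open scoped Topology
open Filter Set

namespace Pool.Agent.R402.HB

theorem holout_of (h1 : RectStm) (h2 : ResolvStm) : HolOutStm := by
  intro X _ _ _ hX S R σ C hC hσ a r hMO x l μ hμ
  have hμ' : r < dist μ a := by
    rw [Metric.mem_closedBall, not_le] at hμ
    exact hμ
  have hρ : 0 < dist μ a - r := sub_pos.2 hμ'
  have hdisj : ∀ lam ∈ Metric.ball a r, lam ∉ Metric.ball μ (dist μ a - r) := by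
    intro lam hl hl'
    rw [Metric.mem_ball] at hl hl'
    have h3 := dist_triangle μ lam a
    rw [dist_comm μ lam] at h3
    linarith
  have hcons : Complex.IsConservativeOn (fun ν => l (σ ν x))
      (Metric.ball μ (dist μ a - r)) := by
    intro z w hzw
    obtain ⟨J, hJ⟩ := h1 X hX (fun ν => σ ν x) (C * ‖x‖)
      (fun ν => (σ ν).le_of_opNorm_le (hσ.bd ν) x) (fun l' => hσ.wc x l') z w (fun _ => 1)
      continuousOn_const
    have hJ' : ∀ l' : X →L[ℂ] ℂ, l' J = rectInt z w (fun ν => l' (σ ν x)) := by
      intro l'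
      have h4 := hJ l'
      simp only [one_mul] at h4
      exact h4
    have hJ0 : J = 0 := hMO J fun lam hlam =>
      h2 X hX S R σ C hC hσ x z w J hJ' lam fun h => hdisj lam hlam (hzw h)
    rw [← add_eq_zero_iff_eq_neg, Complex.wedgeIntegral_add_wedgeIntegral_eq]
    have h5 := hJ' l
    rw [hJ0, map_zero] at h5
    exact h5.symm
  exact ((hcons.isExactOn_ball (hσ.wc x l).continuousOn).differentiableOn
    Metric.isOpen_ball).differentiableAt (Metric.isOpen_ball.mem_nhds (Metric.mem_ball_self hρ))

end Pool.Agent.R402.HB
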