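import Mathlib

/-! Statements of the pieces of project HB (helper402): hyperinvariant subspaces, MP_5ac32f_an. -/

set_option autoImplicit false
open scoped Topology
open Filter Set

namespace Pool.Agent.R402.HB

/-- reflexivity -/
def Refl (X : Type) [NormedAddCommGroup X] [NormedSpace ℂ X] : Prop :=
  Function.Surjective (NormedSpace.inclusionInDoubleDual ℂ X)

/-- on the ball of radius `δ` about `z`, `R x = B x` for some `B` of norm at most `k` commuting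
with `S` -/
def BallP {X : Type} [NormedAddCommGroup X] [NormedSpace ℂ X] (S R : X →L[ℂ] X) (z : X)
    (δ k : ℝ) : Prop :=
  ∀ x : X, ‖x - z‖ < δ → ∃ B : X →L[ℂ] X, B * S = S * B ∧ ‖B‖ ≤ k ∧ B x = R x

/-- ULB: ultrafilter limits of bounded sequences of operators on reflexive spaces -/
def ULBStm : Prop := ∀ (X : Type) [NormedAddCommGroup X] [NormedSpace ℂ X] [CompleteSpace X],
  Refl X → ∀ (B : ℕ → X →L[ℂ] X) (k : ℝ), (∀ n, ‖B n‖ ≤ k) → ∀ 𝒰 : Ultrafilter ℕ,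
  ∃ C : X →L[ℂ] X, ‖C‖ ≤ k ∧ ∀ (l : X →L[ℂ] ℂ) (y : X),
    Tendsto (fun n => l (B n y)) (𝒰 : Filter ℕ) (𝓝 (l (C y)))

/-- BAIREB (uses ULB) -/
def BaireBStm : Prop := ∀ (X : Type) [NormedAddCommGroup X] [NormedSpace ℂ X] [CompleteSpace X],
  Refl X → ∀ S R : X →L[ℂ] X,
  ¬ IsMeagre {x : X | ∃ B : X →L[ℂ] X, B * S = S * B ∧ B x = R x} →
  ∃ (z : X) (δ k : ℝ), 0 < δ ∧ 0 < k ∧ BallP S R z δ k

/-- GEN -/
def GenStm : Prop := ∀ (X : Type) [NormedAddCommGroup X] [NormedSpace ℂ X] [CompleteSpace X]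
  (S R : X →L[ℂ] X) (z : X) (δ k : ℝ), 0 < δ → 0 < k → BallP S R z δ k →
  ∀ (L : ℂ → X →L[ℂ] X) (μ₀ : ℂ), ContinuousAt L μ₀ →
  (∀ μ, ∀ B : X →L[ℂ] X, B * S = S * B → B * L μ = L μ * B) → DenseRange (L μ₀) →
  ∃ η : ℝ, 0 < η ∧ ∃ C : ℝ, 0 ≤ C ∧ ∀ μ : ℂ, ‖μ - μ₀‖ < η → ∀ x : X,
    ∃ u : X, L μ u = R (L μ x) ∧ ‖u‖ ≤ C * ‖x‖

/-- the data produced by SIG -/
structure SigP {X : Type} [NormedAddCommGroup X] [NormedSpace ℂ X] (S R : X →L[ℂ] X)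
    (σ : ℂ → X →L[ℂ] X) (C : ℝ) : Prop where
  inj : ∀ (μ : ℂ) (x : X), S x - μ • x = 0 → x = 0
  eq : ∀ (μ : ℂ) (x : X), S (σ μ x) - μ • σ μ x = R (S x - μ • x)
  bd : ∀ μ, ‖σ μ‖ ≤ C
  lim : ∀ x, Tendsto (fun μ => σ μ x) (cocompact ℂ) (𝓝 (R x))
  wc : ∀ (x : X) (l : X →L[ℂ] ℂ), Continuous fun μ => l (σ μ x)

/-- WEAK -/
def WeakStm : Prop := ∀ (X : Type) [NormedAddCommGroup X] [NormedSpace ℂ X] [CompleteSpace X],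
  Refl X → ∀ (L : X →L[ℂ] X), (∀ x, L x = 0 → x = 0) → ∀ (C : ℝ) (F : Filter ℂ) (g : ℂ → X)
  (g₀ : X), (∀ᶠ μ in F, ‖g μ‖ ≤ C) →
  (∀ h : X →L[ℂ] ℂ, Tendsto (fun μ => h (L (g μ))) F (𝓝 (h (L g₀)))) →
  ∀ l : X →L[ℂ] ℂ, Tendsto (fun μ => l (g μ)) F (𝓝 (l g₀))

/-- SIG (uses GEN and WEAK) -/
def SigStm : Prop := ∀ (X : Type) [NormedAddCommGroup X] [NormedSpace ℂ X] [CompleteSpace X],
  Refl X → ∀ (S R : X →L[ℂ] X) (z : X) (δ k : ℝ), 0 < δ → 0 < k → BallP S R z δ k →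
  (∀ (μ : ℂ) (x : X), S x - μ • x = 0 → x = 0) →
  (∀ μ : ℂ, DenseRange fun x : X => S x - μ • x) →
  ∃ (σ : ℂ → X →L[ℂ] X) (C : ℝ), 0 ≤ C ∧ SigP S R σ C

/-- DIFF (uses GEN and WEAK) -/
def DiffStm : Prop := ∀ (X : Type) [NormedAddCommGroup X] [NormedSpace ℂ X] [CompleteSpace X],
  Refl X → ∀ (S R : X →L[ℂ] X) (z : X) (δ k : ℝ), 0 < δ → 0 < k → BallP S R z δ k →
  (∀ μ : ℂ, DenseRange fun x : X => S x - μ • x) →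
  ∀ (σ : ℂ → X →L[ℂ] X) (C : ℝ), 0 ≤ C → SigP S R σ C →
  ∀ (ν : ℂ) (x : X) (l : X →L[ℂ] ℂ), DifferentiableAt ℂ (fun μ => l (σ μ (S x - ν • x))) ν

/-- the vectors in `(S - λ)X` for all `λ` in `Ω` -/
def MO {X : Type} [NormedAddCommGroup X] [NormedSpace ℂ X] (S : X →L[ℂ] X) (Ω : Set ℂ) :
    Set X := {v | ∀ lam ∈ Ω, ∃ u : X, S u - lam • u = v}

/-- HOLIN (uses DIFF) -/
def HolInStm : Prop := ∀ (X : Type) [NormedAddCommGroup X] [NormedSpace ℂ X] [CompleteSpace X]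
  (S R : X →L[ℂ] X) (σ : ℂ → X →L[ℂ] X) (C : ℝ), 0 ≤ C → SigP S R σ C →
  (∀ (ν : ℂ) (x : X) (l : X →L[ℂ] ℂ), DifferentiableAt ℂ (fun μ => l (σ μ (S x - ν • x))) ν) →
  ∀ (a : ℂ) (r : ℝ), Dense (MO S (Metric.ball a r)) →
  ∀ (x : X) (l : X →L[ℂ] ℂ), ∀ μ ∈ Metric.ball a r, DifferentiableAt ℂ (fun μ => l (σ μ x)) μ

/-- the integral over the boundary of the rectangle with corners `z`, `w` -/
noncomputable def rectInt (z w : ℂ) (f : ℂ → ℂ) : ℂ :=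
  (∫ x : ℝ in z.re..w.re, f (x + z.im * Complex.I)) -
    (∫ x : ℝ in z.re..w.re, f (x + w.im * Complex.I)) +
    Complex.I • (∫ y : ℝ in z.im..w.im, f (w.re + y * Complex.I)) -
    Complex.I • (∫ y : ℝ in z.im..w.im, f (z.re + y * Complex.I))

/-- RECT: weak integrals exist in reflexive spaces -/
def RectStm : Prop := ∀ (X : Type) [NormedAddCommGroup X] [NormedSpace ℂ X] [CompleteSpace X],
  Refl X → ∀ (f : ℂ → X) (C : ℝ), (∀ μ, ‖f μ‖ ≤ C) → (∀ l : X →L[ℂ] ℂ, Continuous fun μ => l (f μ)) →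
  ∀ (z w : ℂ) (ω : ℂ → ℂ), ContinuousOn ω (Complex.Rectangle z w) →
  ∃ J : X, ∀ l : X →L[ℂ] ℂ, l J = rectInt z w (fun μ => ω μ * l (f μ))

/-- RESOLV (uses RECT) -/
def ResolvStm : Prop := ∀ (X : Type) [NormedAddCommGroup X] [NormedSpace ℂ X] [CompleteSpace X],
  Refl X → ∀ (S R : X →L[ℂ] X) (σ : ℂ → X →L[ℂ] X) (C : ℝ), 0 ≤ C → SigP S R σ C →
  ∀ (x : X) (z w : ℂ) (J : X), (∀ l : X →L[ℂ] ℂ, l J = rectInt z w (fun μ => l (σ μ x))) →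
  ∀ lam : ℂ, lam ∉ Complex.Rectangle z w → ∃ u : X, S u - lam • u = J

/-- HOLOUT (uses RECT and RESOLV) -/
def HolOutStm : Prop := ∀ (X : Type) [NormedAddCommGroup X] [NormedSpace ℂ X] [CompleteSpace X],
  Refl X → ∀ (S R : X →L[ℂ] X) (σ : ℂ → X →L[ℂ] X) (C : ℝ), 0 ≤ C → SigP S R σ C →
  ∀ (a : ℂ) (r : ℝ), (∀ v ∈ MO S (Metric.ball a r), v = 0) →
  ∀ (x : X) (l : X →L[ℂ] ℂ), ∀ μ : ℂ, μ ∉ Metric.closedBall a r →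
    DifferentiableAt ℂ (fun μ => l (σ μ x)) μ

/-- LIOU -/
def LiouStm : Prop := ∀ (φ : ℂ → ℂ) (C : ℝ) (c : ℂ), Continuous φ → (∀ μ, ‖φ μ‖ ≤ C) →
  Tendsto φ (cocompact ℂ) (𝓝 c) →
  (∀ (a : ℂ) (r : ℝ), 0 < r → (∀ μ ∈ Metric.ball a r, DifferentiableAt ℂ φ μ) ∨
    (∀ μ : ℂ, μ ∉ Metric.closedBall a r → DifferentiableAt ℂ φ μ)) →
  ∀ μ, φ μ = c

end Pool.Agent.R402.HB
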