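import Mathlib
import Pool.Agent.R402.HB.Stm

/-! Piece LIOU of project HB: Liouville and a removable point. -/

set_option autoImplicit false
open scoped Topology
open Filter Set

namespace Pool.Agent.R402.HB

theorem liou : LiouStm := by
  intro φ C c hcont hbd hlim hloc
  have hdiff : Differentiable ℂ φ := by
    by_contra hcon
    unfold Differentiable at hcon
    push Not at hcon
    obtain ⟨μ0, hμ0⟩ := hcon
    have h1 : ∀ μ : ℂ, μ ≠ μ0 → DifferentiableAt ℂ φ μ := by
      intro μ hμ
      have hpos : 0 < dist μ μ0 := dist_pos.2 hμ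
      rcases hloc μ0 (dist μ μ0 / 2) (by linarith) with h | h
      · exact absurd (h μ0 (Metric.mem_ball_self (by linarith))) hμ0
      · apply h
        rw [Metric.mem_closedBall, not_le]
        linarith
    apply hμ0
    have h2 : DifferentiableOn ℂ φ (univ \ {μ0}) := by
      intro μ hμ
      exact (h1 μ hμ.2).differentiableWithinAt
    have h3 : DifferentiableOn ℂ φ univ :=
      (Complex.differentiableOn_compl_singleton_and_continuousAt_iff
        (s := univ) (c := μ0) univ_mem).1 ⟨h2, hcont.continuousAt⟩
    exact h3.differentiableAt univ_mem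
  have hb : Bornology.IsBounded (range φ) := by
    rw [isBounded_iff_forall_norm_le]
    refine ⟨C, ?_⟩
    rintro _ ⟨μ, rfl⟩
    exact hbd μ
  intro μ
  have h1 : φ = fun _ => φ μ := by
    funext z
    exact hdiff.apply_eq_apply_of_bounded hb z μ
  have h2 : Tendsto φ (cocompact ℂ) (𝓝 (φ μ)) := by
    rw [h1]
    exact tendsto_const_nhds
  exact tendsto_nhds_unique h2 hlim

end Pool.Agent.R402.HB
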