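import Pool.Agent.R402.HB.Stm

/-! HB-RECT (helper227): weak integrals over the boundary of a rectangle in reflexive spaces. -/

set_option autoImplicit false

open MeasureTheory

namespace Pool.Agent.R402.HB

namespace Rect

theorem rect_compact (z w : ℂ) : IsCompact (Complex.Rectangle z w) :=
  isCompact_uIcc.reProdIm isCompact_uIcc

theorem mem1 (z w : ℂ) {t : ℝ} (ht : t ∈ Set.uIcc z.re w.re) :
    (t : ℂ) + z.im * Complex.I ∈ Complex.Rectangle z w := by
  rw [Complex.Rectangle, Complex.mem_reProdIm]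
  simp only [Complex.add_re, Complex.ofReal_re, Complex.mul_re, Complex.I_re, mul_zero,
    Complex.ofReal_im, Complex.I_im, mul_one, sub_self, add_zero, Complex.add_im, Complex.mul_im,
    zero_add]
  exact ⟨ht, Set.left_mem_uIcc⟩

theorem mem2 (z w : ℂ) {t : ℝ} (ht : t ∈ Set.uIcc z.re w.re) :
    (t : ℂ) + w.im * Complex.I ∈ Complex.Rectangle z w := by
  rw [Complex.Rectangle, Complex.mem_reProdIm]
  simp only [Complex.add_re, Complex.ofReal_re, Complex.mul_re, Complex.I_re, mul_zero,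
    Complex.ofReal_im, Complex.I_im, mul_one, sub_self, add_zero, Complex.add_im, Complex.mul_im,
    zero_add]
  exact ⟨ht, Set.right_mem_uIcc⟩

theorem mem3 (z w : ℂ) {t : ℝ} (ht : t ∈ Set.uIcc z.im w.im) :
    (w.re : ℂ) + t * Complex.I ∈ Complex.Rectangle z w := by
  rw [Complex.Rectangle, Complex.mem_reProdIm]
  simp only [Complex.add_re, Complex.ofReal_re, Complex.mul_re, Complex.I_re, mul_zero,
    Complex.ofReal_im, Complex.I_im, mul_one, sub_self, add_zero, Complex.add_im, Complex.mul_im,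
    zero_add]
  exact ⟨Set.right_mem_uIcc, ht⟩

theorem mem4 (z w : ℂ) {t : ℝ} (ht : t ∈ Set.uIcc z.im w.im) :
    (z.re : ℂ) + t * Complex.I ∈ Complex.Rectangle z w := by
  rw [Complex.Rectangle, Complex.mem_reProdIm]
  simp only [Complex.add_re, Complex.ofReal_re, Complex.mul_re, Complex.I_re, mul_zero,
    Complex.ofReal_im, Complex.I_im, mul_one, sub_self, add_zero, Complex.add_im, Complex.mul_im,
    zero_add]
  exact ⟨Set.left_mem_uIcc, ht⟩


theorem seg {X : Type*} [NormedAddCommGroup X] [NormedSpace ℂ X] (f : ℂ → X) (ω : ℂ → ℂ)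
    (K : Set ℂ) (hK : IsCompact K) (C : ℝ) (hC : ∀ μ ∈ K, ‖f μ‖ ≤ C)
    (hf : ∀ l : X →L[ℂ] ℂ, ContinuousOn (fun μ => l (f μ)) K) (hω : ContinuousOn ω K)
    (γ : ℝ → ℂ) (hγ : Continuous γ) (a b : ℝ) (hγK : ∀ t ∈ Set.uIcc a b, γ t ∈ K) :
    ∃ Λ : (X →L[ℂ] ℂ) →L[ℂ] ℂ, ∀ l, Λ l = ∫ t in a..b, ω (γ t) * l (f (γ t)) := by
  have hint : ∀ l : X →L[ℂ] ℂ,
      IntervalIntegrable (fun t => ω (γ t) * l (f (γ t))) volume a b := fun l =>
    ContinuousOn.intervalIntegrable
      (ContinuousOn.mul (hω.comp hγ.continuousOn hγK) ((hf l).comp hγ.continuousOn hγK))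
  obtain ⟨B, hB⟩ := hK.exists_bound_of_continuousOn hω
  let L : (X →L[ℂ] ℂ) →ₗ[ℂ] ℂ :=
    { toFun := fun l => ∫ t in a..b, ω (γ t) * l (f (γ t))
      map_add' := by
        intro l l'
        rw [← intervalIntegral.integral_add (hint l) (hint l')]
        refine intervalIntegral.integral_congr fun t _ => ?_
        simp only [add_apply, mul_add]
      map_smul' := by
        intro c l
        simp only [RingHom.id_apply, smul_eq_mul]
        rw [← intervalIntegral.integral_const_mul]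
        refine intervalIntegral.integral_congr fun t _ => ?_
        simp only [smul_apply, smul_eq_mul]
        ring }
  refine ⟨L.mkContinuous (|B| * |C| * |b - a|) ?_, fun l => rfl⟩
  intro l
  have h := intervalIntegral.norm_integral_le_of_norm_le_const
    (f := fun t => ω (γ t) * l (f (γ t))) (a := a) (b := b) (C := |B| * (‖l‖ * |C|)) (by
      intro t ht
      have htK := hγK t (Set.uIoc_subset_uIcc ht)
      rw [norm_mul]
      refine mul_le_mul ((hB _ htK).trans (le_abs_self _)) ?_ (norm_nonneg _) (abs_nonneg _)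
      refine (l.le_opNorm _).trans ?_
      exact mul_le_mul_of_nonneg_left ((hC _ htK).trans (le_abs_self _)) (norm_nonneg _))
  calc ‖L l‖ ≤ |B| * (‖l‖ * |C|) * |b - a| := h
    _ = |B| * |C| * |b - a| * ‖l‖ := by ring


theorem rect_core {X : Type*} [NormedAddCommGroup X] [NormedSpace ℂ X]
    (hrefl : ∀ Φ : (X →L[ℂ] ℂ) →L[ℂ] ℂ, ∃ v : X, ∀ l : X →L[ℂ] ℂ, Φ l = l v)
    (f : ℂ → X) (ω : ℂ → ℂ) (z w : ℂ) (C : ℝ)
    (hC : ∀ μ ∈ Complex.Rectangle z w, ‖f μ‖ ≤ C)
    (hf : ∀ l : X →L[ℂ] ℂ, ContinuousOn (fun μ => l (f μ)) (Complex.Rectangle z w))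
    (hω : ContinuousOn ω (Complex.Rectangle z w)) :
    ∃ J : X, ∀ l : X →L[ℂ] ℂ, l J = rectInt z w (fun μ => ω μ * l (f μ)) := by
  have hK := rect_compact z w
  obtain ⟨L1, h1⟩ := seg f ω _ hK C hC hf hω (fun t : ℝ => (t : ℂ) + z.im * Complex.I)
    (by fun_prop) z.re w.re (fun t ht => mem1 z w ht)
  obtain ⟨L2, h2⟩ := seg f ω _ hK C hC hf hω (fun t : ℝ => (t : ℂ) + w.im * Complex.I)
    (by fun_prop) z.re w.re (fun t ht => mem2 z w ht)
  obtain ⟨L3, h3⟩ := seg f ω _ hK C hC hf hω (fun t : ℝ => (w.re : ℂ) + t * Complex.I)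
    (by fun_prop) z.im w.im (fun t ht => mem3 z w ht)
  obtain ⟨L4, h4⟩ := seg f ω _ hK C hC hf hω (fun t : ℝ => (z.re : ℂ) + t * Complex.I)
    (by fun_prop) z.im w.im (fun t ht => mem4 z w ht)
  obtain ⟨J, hJ⟩ := hrefl (L1 - L2 + Complex.I • L3 - Complex.I • L4)
  refine ⟨J, fun l => ?_⟩
  rw [← hJ l]
  simp only [sub_apply, add_apply, smul_apply, h1, h2, h3, h4, rectInt]

end Rect

theorem rect : RectStm := by
  intro X _ _ _ hX f C hC hf z w ω hω
  refine Rect.rect_core ?_ f ω z w C (fun μ _ => hC μ) (fun l => (hf l).continuousOn) hω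
  intro Φ
  obtain ⟨v, hv⟩ := hX Φ
  refine ⟨v, fun l => ?_⟩
  rw [← hv]
  exact NormedSpace.dual_def ℂ X v l

end Pool.Agent.R402.HB
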