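import Pool.Agent.R402.HB.Stm

/-! HB-RESOLV -/

set_option autoImplicit false
open scoped Topology
open Filter Set

namespace Pool.Agent.R402.HB

namespace RES

theorem mem_rect {z w μ : ℂ} : μ ∈ Complex.Rectangle z w ↔
    μ.re ∈ uIcc z.re w.re ∧ μ.im ∈ uIcc z.im w.im := by
  unfold Complex.Rectangle
  rw [Complex.mem_reProdIm]

theorem edge1 {z w : ℂ} {t : ℝ} (ht : t ∈ uIcc z.re w.re) :
    (t + z.im * Complex.I : ℂ) ∈ Complex.Rectangle z w := by
  rw [mem_rect]
  constructor
  · simpa using ht
  · simp

theorem edge2 {z w : ℂ} {t : ℝ} (ht : t ∈ uIcc z.re w.re) :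
    (t + w.im * Complex.I : ℂ) ∈ Complex.Rectangle z w := by
  rw [mem_rect]
  constructor
  · simpa using ht
  · simp

theorem edge3 {z w : ℂ} {t : ℝ} (ht : t ∈ uIcc z.im w.im) :
    (w.re + t * Complex.I : ℂ) ∈ Complex.Rectangle z w := by
  rw [mem_rect]
  constructor
  · simp
  · simpa using ht

theorem edge4 {z w : ℂ} {t : ℝ} (ht : t ∈ uIcc z.im w.im) :
    (z.re + t * Complex.I : ℂ) ∈ Complex.Rectangle z w := by
  rw [mem_rect]
  constructor
  · simp
  · simpa using ht

theorem rectInt_congr {z w : ℂ} {f g : ℂ → ℂ} (h : ∀ μ ∈ Complex.Rectangle z w, f μ = g μ) :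
    rectInt z w f = rectInt z w g := by
  unfold rectInt
  rw [intervalIntegral.integral_congr (f := fun x : ℝ => f (x + z.im * Complex.I))
      (g := fun x : ℝ => g (x + z.im * Complex.I)) fun t ht => h _ (edge1 ht),
    intervalIntegral.integral_congr (f := fun x : ℝ => f (x + w.im * Complex.I))
      (g := fun x : ℝ => g (x + w.im * Complex.I)) fun t ht => h _ (edge2 ht),
    intervalIntegral.integral_congr (f := fun y : ℝ => f (w.re + y * Complex.I))
      (g := fun y : ℝ => g (w.re + y * Complex.I)) fun t ht => h _ (edge3 ht),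
    intervalIntegral.integral_congr (f := fun y : ℝ => f (z.re + y * Complex.I))
      (g := fun y : ℝ => g (z.re + y * Complex.I)) fun t ht => h _ (edge4 ht)]

theorem rectInt_add {z w : ℂ} {f g : ℂ → ℂ} (hf : ContinuousOn f (Complex.Rectangle z w))
    (hg : ContinuousOn g (Complex.Rectangle z w)) :
    rectInt z w (fun μ => f μ + g μ) = rectInt z w f + rectInt z w g := by
  have c1 : ∀ F : ℂ → ℂ, ContinuousOn F (Complex.Rectangle z w) →
      IntervalIntegrable (fun x : ℝ => F (x + z.im * Complex.I)) MeasureTheory.volume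
        z.re w.re := by
    intro F hF
    apply ContinuousOn.intervalIntegrable
    exact hF.comp (by fun_prop) fun t ht => edge1 ht
  have c2 : ∀ F : ℂ → ℂ, ContinuousOn F (Complex.Rectangle z w) →
      IntervalIntegrable (fun x : ℝ => F (x + w.im * Complex.I)) MeasureTheory.volume
        z.re w.re := by
    intro F hF
    apply ContinuousOn.intervalIntegrable
    exact hF.comp (by fun_prop) fun t ht => edge2 ht
  have c3 : ∀ F : ℂ → ℂ, ContinuousOn F (Complex.Rectangle z w) →
      IntervalIntegrable (fun y : ℝ => F (w.re + y * Complex.I)) MeasureTheory.volume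
        z.im w.im := by
    intro F hF
    apply ContinuousOn.intervalIntegrable
    exact hF.comp (by fun_prop) fun t ht => edge3 ht
  have c4 : ∀ F : ℂ → ℂ, ContinuousOn F (Complex.Rectangle z w) →
      IntervalIntegrable (fun y : ℝ => F (z.re + y * Complex.I)) MeasureTheory.volume
        z.im w.im := by
    intro F hF
    apply ContinuousOn.intervalIntegrable
    exact hF.comp (by fun_prop) fun t ht => edge4 ht
  unfold rectInt
  rw [intervalIntegral.integral_add (c1 f hf) (c1 g hg),
    intervalIntegral.integral_add (c2 f hf) (c2 g hg),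
    intervalIntegral.integral_add (c3 f hf) (c3 g hg),
    intervalIntegral.integral_add (c4 f hf) (c4 g hg), smul_add, smul_add]
  ring

end RES

theorem resolv_of (h : RectStm) : ResolvStm := by
  intro X _ _ _ hX S R σ C hC hσ x z w J hJ lam hlam
  have hne : ∀ μ ∈ Complex.Rectangle z w, μ - lam ≠ 0 := by
    intro μ hμ h0
    rw [sub_eq_zero] at h0
    rw [h0] at hμ
    exact hlam hμ
  have hω : ContinuousOn (fun μ : ℂ => (μ - lam)⁻¹) (Complex.Rectangle z w) :=
    ContinuousOn.inv₀ (by fun_prop) hne
  obtain ⟨u, hu⟩ := h X hX (fun μ => σ μ x) (C * ‖x‖)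
    (fun μ => (σ μ).le_of_opNorm_le (hσ.bd μ) x) (fun l => hσ.wc x l) z w
    (fun μ => (μ - lam)⁻¹) hω
  refine ⟨u, ?_⟩
  have key : ∀ l : X →L[ℂ] ℂ, l (S u - lam • u) = l J := by
    intro l
    have h1 : l (S u - lam • u) = (l.comp S - lam • l) u := by
      simp
    rw [h1, hu, hJ]
    have h2 : rectInt z w (fun μ => (μ - lam)⁻¹ * (l.comp S - lam • l) (σ μ x)) =
        rectInt z w (fun μ => (μ - lam)⁻¹ * l (R (S x - μ • x)) + l (σ μ x)) := by
      apply RES.rectInt_congr
      intro μ hμ
      have h3 : (l.comp S - lam • l) (σ μ x) =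
          l (R (S x - μ • x)) + (μ - lam) * l (σ μ x) := by
        rw [← hσ.eq μ x]
        simp only [ContinuousLinearMap.coe_sub', ContinuousLinearMap.coe_comp', Pi.sub_apply,
          Function.comp_apply, ContinuousLinearMap.coe_smul', Pi.smul_apply, smul_eq_mul,
          map_sub, map_smul]
        ring
      rw [h3, mul_add, ← mul_assoc, inv_mul_cancel₀ (hne μ hμ), one_mul]
    rw [h2]
    have hlin : ∀ μ : ℂ, l (R (S x - μ • x)) = l (R (S x)) - μ * l (R x) := by
      intro μ
      simp
    have hd : DifferentiableOn ℂ (fun μ => (μ - lam)⁻¹ * l (R (S x - μ • x)))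
        (Complex.Rectangle z w) := by
      simp only [hlin]
      apply DifferentiableOn.mul
      · exact DifferentiableOn.inv (by fun_prop) hne
      · fun_prop
    have hz : rectInt z w (fun μ => (μ - lam)⁻¹ * l (R (S x - μ • x))) = 0 :=
      Complex.integral_boundary_rect_eq_zero_of_differentiableOn _ z w hd
    rw [RES.rectInt_add hd.continuousOn (hσ.wc x l).continuousOn, hz, zero_add]
  rw [SeparatingDual.eq_iff_forall_dual_eq (R := ℂ)]
  exact fun l => key l

end Pool.Agent.R402.HB
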