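import Pool.Agent.R402.HB.Stm

/-! Piece SIG of project HB (helper415). -/

set_option autoImplicit false
open scoped Topology
open Filter Set

namespace Pool.Agent.R402.HB

theorem sig_of (h1 : GenStm) (h2 : WeakStm) : SigStm := by
  intro X _ _ _ hrefl S R z δ k hδ hk hball hinj hdense
  set L : ℂ → X →L[ℂ] X := fun μ => S - μ • (1 : X →L[ℂ] X) with hL
  have hLa : ∀ μ x, L μ x = S x - μ • x := by
    intro μ x; simp [hL]
  have hLc : Continuous L := by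
    rw [hL]; fun_prop
  have hcomm : ∀ μ, ∀ B : X →L[ℂ] X, B * S = S * B → B * L μ = L μ * B := by
    intro μ B hB
    simp only [hL, mul_sub, sub_mul, hB, mul_smul_comm, smul_mul_assoc, mul_one, one_mul]
  have hgen : ∀ μ₀ : ℂ, ∃ η : ℝ, 0 < η ∧ ∃ C : ℝ, 0 ≤ C ∧ ∀ μ : ℂ, ‖μ - μ₀‖ < η → ∀ x : X,
      ∃ u : X, L μ u = R (L μ x) ∧ ‖u‖ ≤ C * ‖x‖ := by
    intro μ₀
    apply h1 X S R z δ k hδ hk hball L μ₀ hLc.continuousAt hcomm
    have := hdense μ₀
    convert this using 1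
    funext x
    exact hLa μ₀ x
  have hex : ∀ μ x, ∃ u : X, L μ u = R (L μ x) := by
    intro μ x
    obtain ⟨η, hη, C, hC, h⟩ := hgen μ
    obtain ⟨u, hu, -⟩ := h μ (by simpa using hη) x
    exact ⟨u, hu⟩
  have hinjL : ∀ μ u v, L μ u = L μ v → u = v := by
    intro μ u v h
    have : S (u - v) - μ • (u - v) = 0 := by
      rw [← hLa, map_sub, h, sub_self]
    exact sub_eq_zero.1 (hinj μ _ this)
  choose s hs using hex
  -- linearity
  have hadd : ∀ μ x y, s μ (x + y) = s μ x + s μ y := by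
    intro μ x y
    apply hinjL μ
    rw [map_add, hs, hs, hs, map_add, map_add]
  have hsmul : ∀ μ (c : ℂ) x, s μ (c • x) = c • s μ x := by
    intro μ c x
    apply hinjL μ
    rw [map_smul, hs, hs, map_smul, map_smul]
  have hloc : ∀ μ₀ : ℂ, ∃ η : ℝ, 0 < η ∧ ∃ C : ℝ, 0 ≤ C ∧ ∀ μ : ℂ, ‖μ - μ₀‖ < η → ∀ x : X,
      ‖s μ x‖ ≤ C * ‖x‖ := by
    intro μ₀
    obtain ⟨η, hη, C, hC, h⟩ := hgen μ₀
    refine ⟨η, hη, C, hC, fun μ hμ x => ?_⟩
    obtain ⟨u, hu, hu2⟩ := h μ hμ x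
    have : s μ x = u := hinjL μ _ _ (by rw [hs, hu])
    rw [this]; exact hu2
  have hbd : ∀ μ, ∃ C : ℝ, 0 ≤ C ∧ ∀ x, ‖s μ x‖ ≤ C * ‖x‖ := by
    intro μ
    obtain ⟨η, hη, C, hC, h⟩ := hloc μ
    exact ⟨C, hC, fun x => h μ (by simpa using hη) x⟩
  choose Cb hCb0 hCb using hbd
  set σ : ℂ → X →L[ℂ] X := fun μ => LinearMap.mkContinuous
    { toFun := s μ, map_add' := hadd μ, map_smul' := hsmul μ } (Cb μ) (hCb μ) with hσ
  have hσa : ∀ μ x, σ μ x = s μ x := fun μ x => rfl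
  have hσeq : ∀ μ x, L μ (σ μ x) = R (L μ x) := fun μ x => hs μ x
  -- bound on compact sets
  have hcpt : ∃ C₁ : ℝ, 0 ≤ C₁ ∧ ∀ μ ∈ Metric.closedBall (0 : ℂ) (‖S‖ + 1), ‖σ μ‖ ≤ C₁ := by
    have hK : IsCompact (Metric.closedBall (0 : ℂ) (‖S‖ + 1)) := isCompact_closedBall _ _
    refine hK.induction_on (p := fun T => ∃ C₁ : ℝ, 0 ≤ C₁ ∧ ∀ μ ∈ T, ‖σ μ‖ ≤ C₁) ?_ ?_ ?_ ?_
    · exact ⟨0, le_rfl, fun μ hμ => absurd hμ (Set.notMem_empty μ)⟩
    · rintro A B hAB ⟨C₁, h0, h⟩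
      exact ⟨C₁, h0, fun μ hμ => h μ (hAB hμ)⟩
    · rintro A B ⟨C₁, h0, h⟩ ⟨C₂, h0', h'⟩
      refine ⟨max C₁ C₂, le_max_of_le_left h0, fun μ hμ => ?_⟩
      rcases hμ with hμ | hμ
      · exact (h μ hμ).trans (le_max_left _ _)
      · exact (h' μ hμ).trans (le_max_right _ _)
    · intro μ₀ _
      obtain ⟨η, hη, C, hC, h⟩ := hloc μ₀
      refine ⟨Metric.ball μ₀ η, mem_nhdsWithin_of_mem_nhds (Metric.ball_mem_nhds μ₀ hη), C, hC,
        fun μ hμ => ?_⟩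
      refine ContinuousLinearMap.opNorm_le_bound _ hC fun x => ?_
      rw [hσa]
      exact h μ (by rwa [Metric.mem_ball, dist_eq_norm] at hμ) x
  obtain ⟨C₁, hC₁0, hC₁⟩ := hcpt
  -- large μ
  have hbig : ∀ μ x, (‖μ‖ - ‖S‖) * ‖σ μ x - R x‖ ≤ 2 * ‖R‖ * ‖S‖ * ‖x‖ := by
    intro μ x
    have e1 : L μ (σ μ x - R x) = R (S x) - S (R x) := by
      rw [map_sub, hσeq, hLa, hLa, map_sub, map_smul]; abel
    have e2 : ‖R (S x) - S (R x)‖ ≤ 2 * ‖R‖ * ‖S‖ * ‖x‖ := by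
      calc ‖R (S x) - S (R x)‖ ≤ ‖R (S x)‖ + ‖S (R x)‖ := norm_sub_le _ _
        _ ≤ ‖R‖ * (‖S‖ * ‖x‖) + ‖S‖ * (‖R‖ * ‖x‖) := by
            gcongr
            · exact (R.le_opNorm _).trans (by gcongr; exact S.le_opNorm _)
            · exact (S.le_opNorm _).trans (by gcongr; exact R.le_opNorm _)
        _ = _ := by ring
    have e3 : (‖μ‖ - ‖S‖) * ‖σ μ x - R x‖ ≤ ‖L μ (σ μ x - R x)‖ := by
      rw [hLa]
      set v := σ μ x - R x
      have h3 : ‖μ • v‖ ≤ ‖S v‖ + ‖S v - μ • v‖ := by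
        have : μ • v = S v - (S v - μ • v) := by abel
        conv_lhs => rw [this]
        exact norm_sub_le _ _
      rw [norm_smul] at h3
      have h4 := S.le_opNorm v
      linarith
    rw [e1] at e3
    exact e3.trans e2
  set C : ℝ := max C₁ (‖R‖ + 2 * ‖R‖ * ‖S‖) with hCdef
  have hC0 : 0 ≤ C := le_max_of_le_left hC₁0
  have hCb' : ∀ μ, ‖σ μ‖ ≤ C := by
    intro μ
    by_cases hμ : ‖μ‖ ≤ ‖S‖ + 1
    · exact (hC₁ μ (by simpa using hμ)).trans (le_max_left _ _)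
    · push Not at hμ
      refine le_trans ?_ (le_max_right _ _)
      refine ContinuousLinearMap.opNorm_le_bound _ (by positivity) fun x => ?_
      have h := hbig μ x
      have h5 : ‖σ μ x - R x‖ ≤ 2 * ‖R‖ * ‖S‖ * ‖x‖ := by
        have h6 : 1 * ‖σ μ x - R x‖ ≤ (‖μ‖ - ‖S‖) * ‖σ μ x - R x‖ := by
          gcongr; linarith
        linarith
      have h7 : ‖σ μ x‖ ≤ ‖R x‖ + ‖σ μ x - R x‖ := by
        have : σ μ x = R x + (σ μ x - R x) := by abel
        conv_lhs => rw [this]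
        exact norm_add_le _ _
      have h8 := R.le_opNorm x
      linarith
  refine ⟨σ, C, hC0, ⟨hinj, fun μ x => ?_, hCb', fun x => ?_, fun x l => ?_⟩⟩
  · have := hσeq μ x
    rw [hLa, hLa] at this
    exact this
  · rw [tendsto_iff_norm_sub_tendsto_zero]
    have ht : Tendsto (fun μ : ℂ => 2 * ‖R‖ * ‖S‖ * ‖x‖ / (‖μ‖ - ‖S‖)) (cocompact ℂ) (𝓝 0) := by
      apply Tendsto.div_atTop tendsto_const_nhds
      exact tendsto_atTop_add_const_right _ _ tendsto_norm_cocompact_atTop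
    have hev : ∀ᶠ μ : ℂ in cocompact ℂ, ‖S‖ + 1 ≤ ‖μ‖ :=
      tendsto_norm_cocompact_atTop.eventually_ge_atTop _
    refine squeeze_zero' (Filter.Eventually.of_forall fun μ => norm_nonneg _) ?_ ht
    filter_upwards [hev] with μ hμ
    rw [le_div_iff₀ (by linarith), mul_comm]
    exact hbig μ x
  · rw [continuous_iff_continuousAt]
    intro μ₀
    refine h2 X hrefl (L μ₀) (fun y hy => hinj μ₀ y (by rw [← hLa]; exact hy)) (C * ‖x‖) (𝓝 μ₀)
      (fun μ => σ μ x) (σ μ₀ x) ?_ ?_ l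
    · refine Filter.Eventually.of_forall fun μ => ?_
      exact (ContinuousLinearMap.le_opNorm _ _).trans (by gcongr; exact hCb' μ)
    · intro h
      refine (h.continuous.tendsto _).comp ?_
      have e : ∀ μ, L μ₀ (σ μ x) = R (L μ x) + (μ - μ₀) • σ μ x := by
        intro μ
        rw [← hσeq, hLa, hLa, sub_smul]; abel
      have e2 : (fun μ => L μ₀ (σ μ x)) = fun μ => R (L μ x) + (μ - μ₀) • σ μ x := funext e
      rw [e2, hσeq]
      have t1 : Tendsto (fun μ => R (L μ x)) (𝓝 μ₀) (𝓝 (R (L μ₀ x))) := by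
        have : Continuous fun μ => R (L μ x) := by
          have : ∀ μ, R (L μ x) = R (S x - μ • x) := fun μ => by rw [hLa]
          simp only [this]
          fun_prop
        exact this.tendsto _
      have t2 : Tendsto (fun μ => (μ - μ₀) • σ μ x) (𝓝 μ₀) (𝓝 0) := by
        rw [tendsto_zero_iff_norm_tendsto_zero]
        have t3 : Tendsto (fun μ : ℂ => ‖μ - μ₀‖ * (C * ‖x‖)) (𝓝 μ₀) (𝓝 0) := by
          have : Continuous fun μ : ℂ => ‖μ - μ₀‖ * (C * ‖x‖) := by fun_prop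
          have h := this.tendsto μ₀
          simpa using h
        refine squeeze_zero (fun μ => norm_nonneg _) (fun μ => ?_) t3
        rw [norm_smul]
        gcongr
        exact (ContinuousLinearMap.le_opNorm _ _).trans (by gcongr; exact hCb' μ)
      have t4 := t1.add t2
      rw [add_zero] at t4
      exact t4

end Pool.Agent.R402.HB
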