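import Pool.Agent.R402.HB.Stm

set_option autoImplicit false
open scoped Topology
open Filter Set

namespace Pool.Agent.R402.HB

theorem sig_of (h1 : GenStm) (h2 : WeakStm) : SigStm := by
  intro X _ _ _ hR S R z δ k hδ hk hB hinj hdense
  -- local bounds
  have hgen : ∀ μ₀ : ℂ, ∃ η : ℝ, 0 < η ∧ ∃ C : ℝ, 0 ≤ C ∧ ∀ μ : ℂ, ‖μ - μ₀‖ < η → ∀ x : X,
      ∃ u : X, S u - μ • u = R (S x - μ • x) ∧ ‖u‖ ≤ C * ‖x‖ := by
    intro μ₀
    have hc : Continuous fun μ : ℂ => S - μ • ContinuousLinearMap.id ℂ X := by fun_prop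
    obtain ⟨η, hη, C, hC, h⟩ := h1 X S R z δ k hδ hk hB
      (fun μ => S - μ • ContinuousLinearMap.id ℂ X) μ₀ hc.continuousAt (by
        intro μ B hBS
        ext x
        have h3 : B (S x) = S (B x) := DFunLike.congr_fun hBS x
        show B (S x - μ • x) = S (B x) - μ • B x
        rw [map_sub, map_smul, h3])
      (by
        exact hdense μ₀)
    refine ⟨η, hη, C, hC, fun μ hμ x => ?_⟩
    obtain ⟨u, hu, hu2⟩ := h μ hμ x
    refine ⟨u, ?_, hu2⟩
    simpa using hu
  have huniq : ∀ (μ : ℂ) (u v : X), S u - μ • u = S v - μ • v → u = v := by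
    intro μ u v huv
    have := hinj μ (u - v) (by
      rw [map_sub, smul_sub]
      have : S u - S v - (μ • u - μ • v) = (S u - μ • u) - (S v - μ • v) := by abel
      rw [this, huv, sub_self])
    exact sub_eq_zero.1 this
  -- choice of the local solution
  have hex : ∀ (μ : ℂ) (x : X), ∃ u : X, S u - μ • u = R (S x - μ • x) := by
    intro μ x
    obtain ⟨η, hη, C, hC, h⟩ := hgen μ
    obtain ⟨u, hu, _⟩ := h μ (by simpa using hη) x
    exact ⟨u, hu⟩
  choose s hs using hex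
  have hbd1 : ∀ μ₀ : ℂ, ∃ η : ℝ, 0 < η ∧ ∃ C : ℝ, 0 ≤ C ∧ ∀ μ : ℂ, ‖μ - μ₀‖ < η → ∀ x : X,
      ‖s μ x‖ ≤ C * ‖x‖ := by
    intro μ₀
    obtain ⟨η, hη, C, hC, h⟩ := hgen μ₀
    refine ⟨η, hη, C, hC, fun μ hμ x => ?_⟩
    obtain ⟨u, hu, hu2⟩ := h μ hμ x
    rw [huniq μ (s μ x) u (by rw [hs, hu])]
    exact hu2
  -- bound for large μ
  set D : ℝ := ‖R * S - S * R‖ with hD
  have hlarge : ∀ (μ : ℂ) (x : X), (‖μ‖ - ‖S‖) * ‖s μ x - R x‖ ≤ D * ‖x‖ := by
    intro μ x
    have e : S (s μ x - R x) - μ • (s μ x - R x) = (R * S - S * R) x := by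
      have := hs μ x
      simp only [map_sub, map_smul, smul_sub] at this ⊢
      simp only [ContinuousLinearMap.sub_apply, ContinuousLinearMap.mul_apply']
      have e2 : S (s μ x) = R (S x) - μ • R x + μ • s μ x := by
        rw [← this]; abel
      rw [e2]; abel
    have h3 : ‖μ • (s μ x - R x)‖ ≤ ‖S (s μ x - R x)‖ + ‖(R * S - S * R) x‖ := by
      have : μ • (s μ x - R x) = S (s μ x - R x) - (R * S - S * R) x := by rw [← e]; abel
      rw [this]
      exact norm_sub_le _ _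
    rw [norm_smul] at h3
    have h4 := S.le_opNorm (s μ x - R x)
    have h5 := (R * S - S * R).le_opNorm x
    nlinarith
  -- global bound
  have hglob : ∃ C : ℝ, 0 ≤ C ∧ ∀ μ x, ‖s μ x‖ ≤ C * ‖x‖ := by
    choose η hη Cl hCl hl using hbd1
    obtain ⟨t, ht⟩ := (isCompact_closedBall (0 : ℂ) (‖S‖ + 1)).elim_nhds_subcover
      (fun μ₀ => Metric.ball μ₀ (η μ₀)) (fun μ₀ _ => Metric.ball_mem_nhds _ (hη μ₀))
    refine ⟨(∑ i ∈ t, Cl i) + (D + ‖R‖), by
      have : 0 ≤ ∑ i ∈ t, Cl i := Finset.sum_nonneg fun i _ => hCl i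
      positivity, fun μ x => ?_⟩
    have hsum : 0 ≤ ∑ i ∈ t, Cl i := Finset.sum_nonneg fun i _ => hCl i
    have hDn : 0 ≤ D := norm_nonneg _
    by_cases hμ : μ ∈ Metric.closedBall (0 : ℂ) (‖S‖ + 1)
    · obtain ⟨i, hi, hi2⟩ := mem_iUnion₂.1 (ht.2 hμ)
      have h3 := hl i μ (by rwa [← dist_eq_norm]) x
      have h4 : Cl i ≤ ∑ i ∈ t, Cl i := Finset.single_le_sum (fun j _ => hCl j) hi
      have h5 := norm_nonneg x
      have h6 := norm_nonneg R
      nlinarith [mul_nonneg hDn h5, mul_nonneg h6 h5, mul_le_mul_of_nonneg_right h4 h5]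
    · have hμ2 : ‖S‖ + 1 < ‖μ‖ := by
        simpa [Metric.mem_closedBall, dist_eq_norm] using hμ
      have h3 := hlarge μ x
      have h4 : ‖s μ x - R x‖ ≤ D * ‖x‖ := by
        have := norm_nonneg (s μ x - R x)
        nlinarith
      have h5 : ‖s μ x‖ ≤ ‖s μ x - R x‖ + ‖R x‖ := by
        have := norm_add_le (s μ x - R x) (R x)
        rwa [sub_add_cancel] at this
      have h6 := R.le_opNorm x
      have h7 := norm_nonneg x
      nlinarith [mul_nonneg hsum h7]
  obtain ⟨C, hC, hbd⟩ := hglob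
  have hadd : ∀ μ x y, s μ (x + y) = s μ x + s μ y := by
    intro μ x y
    apply huniq μ
    have e1 := hs μ x
    have e2 := hs μ y
    have e3 : S (s μ x + s μ y) - μ • (s μ x + s μ y) =
      (S (s μ x) - μ • s μ x) + (S (s μ y) - μ • s μ y) := by
      rw [map_add, smul_add]; abel
    have e4 : S (x + y) - μ • (x + y) = (S x - μ • x) + (S y - μ • y) := by
      rw [map_add, smul_add]; abel
    rw [hs, e3, e1, e2, ← map_add, e4]
  have hsmul : ∀ μ (c : ℂ) x, s μ (c • x) = c • s μ x := by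
    intro μ c x
    apply huniq μ
    rw [hs, map_smul, map_smul, smul_comm μ c x, smul_comm μ c (s μ x), ← smul_sub, ← smul_sub,
      map_smul, hs]
  let σ : ℂ → X →L[ℂ] X := fun μ => LinearMap.mkContinuous
    { toFun := s μ, map_add' := hadd μ, map_smul' := hsmul μ } C (hbd μ)
  have hσ : ∀ μ x, σ μ x = s μ x := fun μ x => rfl
  refine ⟨σ, C, hC, ⟨hinj, ?_, ?_, ?_, ?_⟩⟩
  · intro μ x
    rw [hσ]
    exact hs μ x
  · intro μ
    exact LinearMap.mkContinuous_norm_le _ hC _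
  · intro x
    rw [tendsto_iff_norm_sub_tendsto_zero]
    have hlim : Tendsto (fun μ : ℂ => D * ‖x‖ / (‖μ‖ - ‖S‖)) (cocompact ℂ) (𝓝 0) := by
      apply Tendsto.div_atTop tendsto_const_nhds
      exact tendsto_atTop_add_const_right _ _ tendsto_norm_cocompact_atTop
    refine squeeze_zero' (Eventually.of_forall fun μ => norm_nonneg _) ?_ hlim
    have hev : ∀ᶠ μ : ℂ in cocompact ℂ, ‖S‖ < ‖μ‖ :=
      tendsto_norm_cocompact_atTop.eventually (eventually_gt_atTop _)
    filter_upwards [hev] with μ hμ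
    rw [le_div_iff₀ (by linarith), hσ, mul_comm]
    exact hlarge μ x
  · intro x l
    rw [continuous_iff_continuousAt]
    intro μ₀
    refine h2 X hR (S - μ₀ • ContinuousLinearMap.id ℂ X) (fun y hy => hinj μ₀ y (by simpa using hy))
      (C * ‖x‖) (𝓝 μ₀) (fun μ => σ μ x) (σ μ₀ x) (Eventually.of_forall fun μ => hbd μ x) ?_ l
    intro h
    have key : Tendsto (fun μ : ℂ => (S - μ₀ • ContinuousLinearMap.id ℂ X) (σ μ x)) (𝓝 μ₀)
        (𝓝 ((S - μ₀ • ContinuousLinearMap.id ℂ X) (σ μ₀ x))) := by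
      have e : ∀ μ, (S - μ₀ • ContinuousLinearMap.id ℂ X) (σ μ x) =
          R (S x - μ • x) + (μ - μ₀) • σ μ x := by
        intro μ
        simp only [ContinuousLinearMap.sub_apply, ContinuousLinearMap.smul_apply,
          ContinuousLinearMap.id_apply]
        rw [hσ, ← hs μ x, sub_smul]
        abel
      have e0 : (S - μ₀ • ContinuousLinearMap.id ℂ X) (σ μ₀ x) = R (S x - μ₀ • x) + 0 := by
        rw [e, sub_self, zero_smul]
      rw [e0]
      simp_rw [e]
      apply Tendsto.add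
      · have : Continuous fun μ : ℂ => R (S x - μ • x) := by fun_prop
        exact this.continuousAt
      · rw [tendsto_zero_iff_norm_tendsto_zero]
        have hlim : Tendsto (fun μ : ℂ => ‖μ - μ₀‖ * (C * ‖x‖)) (𝓝 μ₀) (𝓝 0) := by
          have : Continuous fun μ : ℂ => ‖μ - μ₀‖ * (C * ‖x‖) := by fun_prop
          have h3 := this.tendsto μ₀
          simpa using h3
        refine squeeze_zero (fun μ => norm_nonneg _) (fun μ => ?_) hlim
        rw [norm_smul]
        exact mul_le_mul_of_nonneg_left (hbd μ x) (norm_nonneg _)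
    exact (h.continuous.tendsto _).comp key

end Pool.Agent.R402.HB
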