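import Pool.Agent.R402.HB.Stm

/-! Project HB, piece WEAK. -/

set_option autoImplicit false
open scoped Topology
open Filter Set

namespace Pool.Agent.R402.HB

namespace WEAKaux

variable {X : Type} [NormedAddCommGroup X] [NormedSpace ℂ X]

/-- range of the adjoint -/
noncomputable def P (L : X →L[ℂ] X) : Submodule ℂ (X →L[ℂ] ℂ) where
  carrier := {l | ∃ h : X →L[ℂ] ℂ, l = h.comp L}
  add_mem' := by
    rintro _ _ ⟨a, rfl⟩ ⟨b, rfl⟩
    exact ⟨a + b, by rw [ContinuousLinearMap.add_comp]⟩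
  zero_mem' := ⟨0, by rw [ContinuousLinearMap.zero_comp]⟩
  smul_mem' := by
    rintro c _ ⟨a, rfl⟩
    exact ⟨c • a, by rw [ContinuousLinearMap.smul_comp]⟩

theorem dense (hR : Refl X) (L : X →L[ℂ] X) (hL : ∀ x, L x = 0 → x = 0) (l : X →L[ℂ] ℂ) :
    l ∈ closure (P L : Set (X →L[ℂ] ℂ)) := by
  by_contra hl
  have hconv : Convex ℝ (closure (P L : Set (X →L[ℂ] ℂ))) := by
    have h1 : Convex ℝ (P L : Set (X →L[ℂ] ℂ)) := ((P L).restrictScalars ℝ).convex
    exact h1.closure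
  obtain ⟨Φ, u, h1, h2⟩ :=
    RCLike.geometric_hahn_banach_closed_point (𝕜 := ℂ) hconv isClosed_closure hl
  have h0 : ∀ a ∈ P L, Φ a = 0 := by
    intro a ha
    have hc : ∀ c : ℂ, (c * Φ a).re < u := by
      intro c
      have := h1 (c • a) (subset_closure ((P L).smul_mem c ha))
      simpa using this
    by_contra hne
    have h3 := hc (((|u| + 1 : ℝ) : ℂ) * (Φ a)⁻¹)
    rw [mul_assoc, inv_mul_cancel₀ hne, mul_one, Complex.ofReal_re] at h3
    linarith [le_abs_self u]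
  obtain ⟨v, hv⟩ := hR Φ
  have h4 : ∀ h : X →L[ℂ] ℂ, h (L v) = 0 := by
    intro h
    have := h0 (h.comp L) ⟨h, rfl⟩
    rw [← hv, NormedSpace.dual_def] at this
    exact this
  have h5 : L v = 0 := by
    by_contra hne
    obtain ⟨f, hf⟩ := SeparatingDual.exists_ne_zero (R := ℂ) hne
    exact hf (h4 f)
  have h6 : v = 0 := hL v h5
  have h7 : Φ = 0 := by rw [← hv, h6, map_zero]
  have h8 := h1 0 (subset_closure (P L).zero_mem)
  rw [h7] at h2 h8
  simp at h2 h8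
  linarith

end WEAKaux

open WEAKaux

theorem weak : WeakStm := by
  intro X _ _ _ hR L hL C F g g₀ hC hh l
  rw [Metric.tendsto_nhds]
  intro ε hε
  have hM : 0 < max C 0 + ‖g₀‖ + 1 := by positivity
  obtain ⟨p, ⟨h, rfl⟩, hp⟩ := Metric.mem_closure_iff.1 (dense hR L hL l)
    (ε / (2 * (max C 0 + ‖g₀‖ + 1))) (by positivity)
  filter_upwards [hC, (Metric.tendsto_nhds.1 (hh h)) (ε / 2) (by positivity)] with μ h1 h2
  rw [dist_eq_norm] at hp h2 ⊢
  have e : l (g μ) - l g₀ = (l - h.comp L) (g μ) - (l - h.comp L) g₀ +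
      (h (L (g μ)) - h (L g₀)) := by
    simp only [ContinuousLinearMap.sub_apply, ContinuousLinearMap.comp_apply]
    ring
  have b1 : ‖(l - h.comp L) (g μ)‖ ≤ ‖l - h.comp L‖ * max C 0 :=
    ((l - h.comp L).le_opNorm (g μ)).trans
      (mul_le_mul_of_nonneg_left (h1.trans (le_max_left _ _)) (norm_nonneg _))
  have b2 : ‖(l - h.comp L) g₀‖ ≤ ‖l - h.comp L‖ * ‖g₀‖ := (l - h.comp L).le_opNorm g₀
  have b3 : ‖l - h.comp L‖ * (max C 0 + ‖g₀‖ + 1) ≤ ε / 2 := by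
    have := (lt_div_iff₀ (by positivity : (0 : ℝ) < 2 * (max C 0 + ‖g₀‖ + 1))).1 hp
    linarith
  have b4 : ‖l (g μ) - l g₀‖ ≤ ‖(l - h.comp L) (g μ)‖ + ‖(l - h.comp L) g₀‖ +
      ‖h (L (g μ)) - h (L g₀)‖ := by
    rw [e]
    exact (norm_add_le _ _).trans (by gcongr; exact norm_sub_le _ _)
  have b5 : 0 ≤ ‖l - h.comp L‖ := norm_nonneg _
  nlinarith

end Pool.Agent.R402.HB
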